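import Mathlib
import Pool.Agent.Lib.CubeBal.Density

/-!
# Balanced vertex sets in the cube: large dimensions and almost all dimensions

`Q1 n r` is the assertion of the question in dimension `n` at radius `r`: if the centre of the cube
lies in the image of `f_n`, then some balanced set of vertices has diameter at most `r`.
-/

open Finset

namespace Pool.Agent.Results.MP_039f5e_co.AlmostAllDimensions

open Pool.Agent.CubeBal

open Classical in
/-- **Theorem.**
(1) For every large `n` the assertion `Q1 n r` holds for all `r` if `n ≡ 1 (mod 4)`, for all `r`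
outside one interval of length one if `n ≡ 2` or `3 (mod 4)`, and for all `r` outside one interval
of length two if `4 ∣ n`.
(2) In almost all dimensions not divisible by `4` it holds for all `r`, and in almost all dimensions
divisible by `4` for all `r` outside one interval of length one.
(3) Without any exception it holds for all small and all large `r`.
(4) It holds in all dimensions not divisible by `4` with `⌈n / 4⌉` good, and similarly for `4 ∣ n`.
(5) Some orders of Hadamard matrices and of symmetric conference matrices (for (4)). -/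
theorem result :
    (∃ n₀ : ℕ, ∀ n : ℕ, n₀ ≤ n → ∀ r : ℝ,
      (n % 4 = 1 ∨ (n % 4 = 2 ∧ ⌊r⌋₊ ≠ n / 2 + 1) ∨ (n % 4 = 3 ∧ ⌊r⌋₊ ≠ (n + 3) / 2) ∨
        (n % 4 = 0 ∧ ⌊r⌋₊ ≠ n / 2 + 1 ∧ ⌊r⌋₊ ≠ n / 2 + 2)) → Q1 n r) ∧
    (∀ A : ℕ, ∃ N₀ : ℕ, ∀ N : ℕ, N₀ ≤ N →
      (((Icc 1 N).filter (fun n : ℕ => ∃ r : ℝ, ¬ Q1 n r ∧
        (4 ∣ n → ⌊r⌋₊ ≠ n / 2 + 1))).card : ℝ) * (Real.log N) ^ A ≤ N) ∧
    (∀ n : ℕ, 1 ≤ n → ∀ r : ℝ,
      (2 * ⌊r⌋₊ ≤ n + 1 ∨ (n : ℝ) + 1 + (Nat.log 2 (n + 1) : ℕ) ≤ 2 * r) → Q1 n r) ∧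
    (∀ k : ℕ, 1 ≤ k → Good k →
      (∀ n : ℕ, (n + 3) / 4 = k → ¬ 4 ∣ n → ∀ r : ℝ, Q1 n r) ∧
      ∀ r : ℝ, (HasHadamard (4 * k) ∨ ⌊r⌋₊ ≠ 2 * k + 1) → Q1 (4 * k) r) ∧
    (∀ N : ℕ, PaleySylvester N → HasHadamard N) ∧
    (∀ q : ℕ, IsPrimePow q → q % 4 = 1 → HasSymmetricConference (q + 1)) := by
  refine ⟨large_dimensions, almost_all, fun n hn r hr => ?_, fun k hk hg => ⟨fun n hnk h4 r => ?_,
    fun r hr => q1_four_floor hk hg hr⟩, fun N hN => hasHadamard_of_paleySylvester hN,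
    fun q hq h => hasSymmetricConference_paley hq h⟩
  · rcases hr with h | h
    · exact q1_small hn h
    · exact q1_log hn (by linarith)
  · exact q1_good hg hnk (by omega) (fun h => h4 (Nat.dvd_of_mod_eq_zero h)) r

end Pool.Agent.Results.MP_039f5e_co.AlmostAllDimensions
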