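import Mathlib
import Pool.Agent.Lib.CubeBal.Hada

/-!
# Balanced vertex sets in the cube: odd dimension `n` and radius `r = (n + 1) / 2`

For every odd `n`, at the smallest radius `r = (n + 1) / 2` that the elementary bound
`r > n / 2` allows, the centre of the cube is a convex combination of a set of vertices of
diameter at most `r` if and only if it is the unweighted average of such a set, and both hold
if and only if there is a Hadamard matrix of order `n + 1`.
-/

open Finset Matrix

namespace Pool.Agent.Results.MP_039f5e_co.SmallestRadius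

open Pool.Agent.Results.MP_039f5e_co.HadamardDimensions

/-- In the extremal case all positive weights are equal to `1 / (n + 1)`. -/
theorem weight_eq {n : ℕ} {σ : Finset (Fin n → Bool)} {w : (Fin n → Bool) → ℝ}
    (h : Sol σ w) (hR : ∀ a ∈ σ, ∀ b ∈ σ, 2 * hammingDist a b ≤ n + 1)
    {a : Fin n → Bool} (ha : a ∈ σ) (hwa : 0 < w a) : ((n : ℝ) + 1) * w a = 1 := by
  classical
  have h1 : ∑ b ∈ σ, w b * (ip a b : ℝ) = 0 := by
    have h2 : ∀ b, w b * (ip a b : ℝ) = ∑ i, (sg a i : ℝ) * (w b * (sg b i : ℝ)) := by
      intro b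
      unfold ip
      push_cast
      rw [Finset.mul_sum]
      exact Finset.sum_congr rfl (fun i _ => by ring)
    simp_rw [h2]
    rw [Finset.sum_comm]
    apply Finset.sum_eq_zero
    intro i _
    rw [← Finset.mul_sum, h.zero i, mul_zero]
  have h3 : ∀ b ∈ σ, w b * (ip a b : ℝ) = (if b = a then ((n : ℝ) + 1) * w a else 0) - w b := by
    intro b hb
    by_cases hba : b = a
    · subst hba
      rw [ip_self, if_pos rfl]
      push_cast
      ring
    · rw [if_neg hba]
      rcases (h.nonneg b hb).eq_or_lt with h0 | h0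
      · rw [← h0]; ring
      · rw [h.rigid hR ha hb hwa h0 (fun hh => hba hh.symm)]
        push_cast
        ring
  rw [Finset.sum_congr rfl h3, Finset.sum_sub_distrib, h.total, Finset.sum_ite_eq', if_pos ha] at h1
  linarith

theorem hasHadamard_of_sol {n : ℕ} {σ : Finset (Fin n → Bool)} {w : (Fin n → Bool) → ℝ}
    (h : Sol σ w) (hR : ∀ a ∈ σ, ∀ b ∈ σ, 2 * hammingDist a b ≤ n + 1) :
    HasHadamard (n + 1) := by
  classical
  set P : Finset (Fin n → Bool) := σ.filter (fun a => 0 < w a) with hP
  have hcard : P.card = n + 1 := by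
    have h1 : ∑ a ∈ P, w a = 1 := by
      rw [← h.total, hP]
      apply Finset.sum_filter_of_ne
      intro a ha hne
      exact lt_of_le_of_ne (h.nonneg a ha) (Ne.symm hne)
    have h2 : ∑ a ∈ P, ((n : ℝ) + 1) * w a = (P.card : ℝ) := by
      rw [Finset.sum_congr rfl (fun a ha => weight_eq h hR (Finset.mem_filter.1 ha).1
        (Finset.mem_filter.1 ha).2), Finset.sum_const, nsmul_eq_mul, mul_one]
    rw [← Finset.mul_sum, h1, mul_one] at h2
    exact_mod_cast h2.symm
  have hcP : Fintype.card P = n + 1 := by simpa using hcard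
  let e : P ≃ Option (Fin n) := Fintype.equivOfCardEq (by simpa using hcard)
  let H : Matrix P P ℤ := fun a b =>
    match e b with
    | none => 1
    | some i => sg a.1 i
  have hsum : ∀ a b : P, ∑ c, H a c * H b c = 1 + ip a.1 b.1 := by
    intro a b
    have h1 : ∑ c, H a c * H b c = ∑ x : Option (Fin n),
        (match x with | none => (1 : ℤ) | some i => sg a.1 i) *
        (match x with | none => (1 : ℤ) | some i => sg b.1 i) :=
      Fintype.sum_equiv e _ _ (fun c => rfl)
    rw [h1, Fintype.sum_option]
    simp [ip]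
  have hne : Nonempty P := by
    rw [← Fintype.card_pos_iff, hcP]; omega
  refine HasHadamard.of_fintype hcP H (isHadamard_of _ ?_ ?_)
  · intro a b
    simp only [H]
    rcases e b with _ | i
    · left; rfl
    · exact sg_or _ _
  · ext a b
    rw [Matrix.mul_apply, Matrix.smul_apply, smul_eq_mul]
    simp only [Matrix.transpose_apply]
    rw [hsum, hcP]
    by_cases hab : a = b
    · subst hab
      rw [ip_self, Matrix.one_apply_eq]
      push_cast
      ring
    · rw [Matrix.one_apply_ne hab]
      have ha := Finset.mem_filter.1 a.2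
      have hb := Finset.mem_filter.1 b.2
      rw [h.rigid hR ha.1 hb.1 ha.2 hb.2 (fun hh => hab (Subtype.ext hh))]
      ring

theorem centerInImage_of_balanced {n : ℕ} {r : ℝ} {B : Finset (Fin n → Bool)}
    (hB : IsBalanced B) (hd : DiamLE B r) : CenterInImage n r := by
  classical
  refine ⟨B, hB.1, hd, ?_⟩
  rw [← hB.2, Finset.smul_sum]
  have hc : (B.card : ℝ) ≠ 0 := by
    have := hB.1.card_pos
    positivity
  apply (convex_convexHull ℝ _).sum_mem
  · intro b _
    positivity
  · rw [Finset.sum_const, nsmul_eq_mul, mul_inv_cancel₀ hc]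
  · intro b hb
    exact subset_convexHull ℝ _ ⟨b, hb, rfl⟩

/-- **Theorem.** Let `n` be odd and `r = (n + 1) / 2`. Then the centre of the cube is a convex
combination of the points of some set of vertices of diameter at most `r` if and only if it is
the unweighted average of some set of vertices of diameter at most `r`, and this happens if and
only if there is a Hadamard matrix of order `n + 1`. -/
theorem result (n : ℕ) (hn : Odd n) :
    (CenterInImage n (((n : ℝ) + 1) / 2) ↔
      ∃ B : Finset (Fin n → Bool), IsBalanced B ∧ DiamLE B (((n : ℝ) + 1) / 2)) ∧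
    (CenterInImage n (((n : ℝ) + 1) / 2) ↔ HasHadamard (n + 1)) := by
  have h1 : CenterInImage n (((n : ℝ) + 1) / 2) → HasHadamard (n + 1) := by
    rintro ⟨σ, -, hσ, hc⟩
    obtain ⟨w, hw⟩ := exists_sol hc
    apply hasHadamard_of_sol hw
    intro a ha b hb
    have h2 := hσ a ha b hb
    have h3 : (2 : ℝ) * (hammingDist a b : ℝ) ≤ (n : ℝ) + 1 := by linarith
    exact_mod_cast h3
  have h2 : HasHadamard (n + 1) →
      ∃ B : Finset (Fin n → Bool), IsBalanced B ∧ DiamLE B (((n : ℝ) + 1) / 2) := by
    rintro ⟨H, hH⟩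
    obtain ⟨m, hm⟩ := hn
    obtain ⟨B, hB, hd⟩ := bal_of_hadamard (n := n) H hH (by omega) (by omega) (by omega)
    refine ⟨B, hB, fun a ha b hb => ?_⟩
    have h3 := hd a ha b hb
    have h4 : 2 * hammingDist a b ≤ n + 1 := by omega
    have h5 : (2 : ℝ) * (hammingDist a b : ℝ) ≤ (n : ℝ) + 1 := by exact_mod_cast h4
    linarith
  have h3 : (∃ B : Finset (Fin n → Bool), IsBalanced B ∧ DiamLE B (((n : ℝ) + 1) / 2)) →
      CenterInImage n (((n : ℝ) + 1) / 2) := by
    rintro ⟨B, hB, hd⟩
    exact centerInImage_of_balanced hB hd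
  exact ⟨⟨fun h => h2 (h1 h), h3⟩, ⟨h1, fun h => h3 (h2 h)⟩⟩

end Pool.Agent.Results.MP_039f5e_co.SmallestRadius
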